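import Pool.Agent.Helper6.LIL.LO
import Pool.Agent.Helper22.LIL.ASM

/-!
# LO: the measure of the bad set tends to zero (assembled)
-/

open MeasureTheory Filter Set
open scoped Real Topology

namespace Pool.Agent.Helper22.LIL

open Pool.Agent.Helper22.GC Pool.Agent.Helper53.OM

noncomputable section

/-- LO: the measure of the bad set tends to zero. -/
theorem low_measure : ∃ c : ℝ, 0 < c ∧ ∀ (β : ℝ) (lam : ℕ → ℝ), 1 < β → Lac β lam →
    ∀ σ : ℝ, (σ = 1 ∨ σ = -1) → ∀ a b : ℝ, 0 < a → a < b →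
    Tendsto (fun j : ℕ => volume {α ∈ Icc a b | ∀ k : ℕ, 4 ^ j ≤ k → k < 2 * 4 ^ j →
      σ * TK (Nk k) (α * lam k) < c * Phi k}) atTop (𝓝 0) :=
  low_measure_of ASM_TK_sq

end

end Pool.Agent.Helper22.LIL
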