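import Pool.Agent.Helper22.LIL.Defs
import Pool.Agent.Helper55.LIL.GEN
import Pool.Agent.Helper55.LIL.LT
import Pool.Agent.Helper62.LIL.NBG
import Pool.Agent.Helper62.LIL.LW2

/-!
# LO: the measure of the bad set tends to zero
-/

open MeasureTheory Filter Set
open scoped Real Topology

namespace Pool.Agent.Helper22.LIL

open Pool.Agent.Helper22.GC Pool.Agent.Helper53.OM

noncomputable section

/-! ### Elementary lemmas -/

private lemma lo_lac {β : ℝ} {lam : ℕ → ℝ} (hβ : 1 < β) (hl : Lac β lam) (k n : ℕ) :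
    β ^ n * lam k ≤ lam (k + n) := by
  induction n with
  | zero => simp
  | succ n ih =>
    calc β ^ (n + 1) * lam k = β * (β ^ n * lam k) := by ring
      _ ≤ β * lam (k + n) := by
        apply mul_le_mul_of_nonneg_left ih; linarith
      _ ≤ lam (k + n + 1) := hl.2 _
      _ = lam (k + (n + 1)) := by rw [add_assoc]

private lemma lo_Nk {j k : ℕ} (h1 : 4 ^ j ≤ k) (h2 : k < 2 * 4 ^ j) :
    Nk k = 2 ^ (10 * (2 * j + 1)) := by
  have h3 : Nat.log 2 k = 2 * j := by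
    rw [Nat.log_eq_iff (Or.inr ⟨by norm_num, ?_⟩)]
    · constructor
      · rw [pow_mul]; exact h1
      · rw [pow_succ, pow_mul]
        have : (2 : ℕ) ^ 2 = 4 := by norm_num
        rw [this]; omega
    · have : 0 < 4 ^ j := by positivity
      omega
  rw [Nk, h3]

private lemma lo_continuous_TK (K : ℕ) : Continuous (TK K) := by
  unfold TK
  have h : ∀ k : ℕ, Continuous fun R : ℝ => ee (R * √k) := by
    intro k
    unfold ee
    fun_prop
  have h2 : Continuous fun R : ℝ =>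
      ∑ k ∈ Finset.Icc 1 K, ((gr k * (k : ℝ) ^ (-(3 / 4) : ℝ) : ℝ) : ℂ) * ee (R * √k) :=
    continuous_finsetSum _ fun k _ => continuous_const.mul (h k)
  exact continuous_const.mul (Complex.continuous_re.comp (continuous_const.mul h2))

private lemma lo_continuous_Wr (σ : ℝ) (D : Finset ℕ) : Continuous (Wr σ D) := by
  unfold Wr
  exact continuous_finsetProd _ fun p _ => by fun_prop

/-- Chebyshev -/
private lemma lo_cheb {f : ℝ → ℝ} (hf : Continuous f) {a b t : ℝ} (hab : a ≤ b) (ht : 0 < t) :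
    volume {α ∈ Icc a b | t ≤ |f α|} ≤ ENNReal.ofReal ((∫ α in a..b, f α ^ 2) / t ^ 2) := by
  have h1 : {α ∈ Icc a b | t ≤ |f α|} = {α | t ^ 2 ≤ f α ^ 2} ∩ Icc a b := by
    ext α
    simp only [mem_ofPred_eq, mem_inter_iff]
    rw [and_comm, sq_le_sq, abs_of_pos ht]
  have h2 : MeasurableSet {α | t ^ 2 ≤ f α ^ 2} :=
    (isClosed_le continuous_const (hf.pow 2)).measurableSet
  rw [h1, ← Measure.restrict_apply h2]
  have hint : Integrable (fun α => f α ^ 2) (volume.restrict (Icc a b)) :=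
    (hf.pow 2).integrableOn_Icc
  have h3 := mul_meas_ge_le_integral_of_nonneg (μ := volume.restrict (Icc a b))
    (f := fun α => f α ^ 2) (Eventually.of_forall fun α => sq_nonneg _) hint (t ^ 2)
  rw [intervalIntegral.integral_of_le hab, ← integral_Icc_eq_integral_Ioc]
  rw [← ENNReal.ofReal_toReal (measure_ne_top (volume.restrict (Icc a b)) {α | t ^ 2 ≤ f α ^ 2})]
  apply ENNReal.ofReal_le_ofReal
  rw [le_div_iff₀ (by positivity), mul_comm]
  exact h3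

/-- the exponent -/
private def loE (j : ℕ) : ℕ := (11 * j + 6) * 2 ^ (j / 8 + 1)

private def loG (j : ℕ) : ℕ := loE j + 161 * j + 100

private lemma lo_pow_half (j : ℕ) : (2 : ℝ) ^ (j / 8) ≤ (√2) ^ j := by
  have h1 : (1 : ℝ) ≤ √2 := by
    rw [show (1 : ℝ) = √1 by simp]; exact Real.sqrt_le_sqrt (by norm_num)
  calc (2 : ℝ) ^ (j / 8) = (√2) ^ (2 * (j / 8)) := by
        rw [pow_mul, Real.sq_sqrt (by norm_num)]
    _ ≤ (√2) ^ j := pow_le_pow_right₀ h1 (by omega)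

private lemma lo_pow_quarter (j : ℕ) : (4 : ℝ) ^ (j / 8) ≤ (√2) ^ j := by
  have h1 : (1 : ℝ) ≤ √2 := by
    rw [show (1 : ℝ) = √1 by simp]; exact Real.sqrt_le_sqrt (by norm_num)
  calc (4 : ℝ) ^ (j / 8) = (√2) ^ (4 * (j / 8)) := by
        rw [pow_mul]
        congr 1
        have : (√2) ^ 4 = ((√2) ^ 2) ^ 2 := by ring
        rw [this, Real.sq_sqrt (by norm_num)]; norm_num
    _ ≤ (√2) ^ j := pow_le_pow_right₀ h1 (by omega)

/-- `G j = o(2^j)` -/
private lemma lo_G_small {ε : ℝ} (hε : 0 < ε) : ∀ᶠ j : ℕ in atTop, (loG j : ℝ) ≤ ε * 2 ^ j := by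
  have hr : (1 : ℝ) < √2 := by
    rw [show (1 : ℝ) = √1 by simp]; exact Real.sqrt_lt_sqrt (by norm_num) (by norm_num)
  have h0 : (0 : ℝ) < √2 := by positivity
  have t1 := tendsto_pow_const_div_const_pow_of_one_lt 1 hr
  have t0 := tendsto_pow_const_div_const_pow_of_one_lt 0 hr
  have t2 : Tendsto (fun j : ℕ => 183 * ((j : ℝ) ^ 1 / √2 ^ j) + 112 * ((j : ℝ) ^ 0 / √2 ^ j))
      atTop (𝓝 (183 * 0 + 112 * 0)) := (t1.const_mul 183).add (t0.const_mul 112)
  rw [mul_zero, mul_zero, add_zero] at t2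
  filter_upwards [t2.eventually_lt_const hε] with j hj
  have hp : (0 : ℝ) < √2 ^ j := by positivity
  have hsq : (√2 ^ j) * (√2 ^ j) = 2 ^ j := by
    rw [← mul_pow, Real.mul_self_sqrt (by norm_num)]
  have hj' : 183 * (j : ℝ) + 112 < ε * √2 ^ j := by
    have e : 183 * ((j : ℝ) ^ 1 / √2 ^ j) + 112 * ((j : ℝ) ^ 0 / √2 ^ j)
        = (183 * (j : ℝ) + 112) / √2 ^ j := by
      rw [pow_one, pow_zero]; ring
    rw [e, div_lt_iff₀ hp] at hj
    exact hj
  have h1 : (1 : ℝ) ≤ √2 ^ j := one_le_pow₀ hr.le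
  calc (loG j : ℝ) = (11 * (j : ℝ) + 6) * (2 * 2 ^ (j / 8)) + 161 * j + 100 := by
        simp only [loG, loE]; push_cast; ring
    _ ≤ (11 * (j : ℝ) + 6) * (2 * √2 ^ j) + (161 * j + 100) * √2 ^ j := by
        have := lo_pow_half j
        have e1 : (11 * (j : ℝ) + 6) * (2 * 2 ^ (j / 8)) ≤ (11 * (j : ℝ) + 6) * (2 * √2 ^ j) := by
          gcongr
        have e2 : (161 * (j : ℝ) + 100) * 1 ≤ (161 * j + 100) * √2 ^ j := by
          gcongr
        linarith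
    _ = (183 * (j : ℝ) + 112) * √2 ^ j := by ring
    _ ≤ (ε * √2 ^ j) * √2 ^ j := by gcongr
    _ = ε * 2 ^ j := by rw [mul_assoc, hsq]

private lemma lo_beta {β : ℝ} (hβ : 1 < β) :
    ∀ᶠ j : ℕ in atTop, (2 : ℝ) ^ (2 * loG j) ≤ β ^ (2 ^ j) := by
  have hb : 0 < Real.log β := Real.log_pos hβ
  have h2 : 0 < Real.log 2 := Real.log_pos (by norm_num)
  filter_upwards [lo_G_small (ε := Real.log β / (2 * Real.log 2)) (by positivity)] with j hj
  have hβ0 : 0 < β := by linarith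
  rw [← Real.log_le_log_iff (by positivity) (by positivity), Real.log_pow, Real.log_pow]
  push_cast
  have : Real.log β / (2 * Real.log 2) * 2 ^ j * (2 * Real.log 2) = 2 ^ j * Real.log β := by
    field_simp
  nlinarith

private lemma lo_Phi : Tendsto (fun j : ℕ => Phi (4 ^ j)) atTop atTop := by
  have hk : 1 < kap := by
    rw [kap]
    exact Real.one_lt_rpow (by norm_num) (by norm_num)
  have t1 : Tendsto (fun j : ℕ => (((4 ^ j : ℕ)) : ℝ)) atTop atTop :=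
    tendsto_natCast_atTop_atTop.comp (tendsto_pow_atTop_atTop_of_one_lt (by norm_num))
  have t2 : Tendsto (fun j : ℕ => Real.log ((4 ^ j : ℕ) : ℝ)) atTop atTop :=
    Real.tendsto_log_atTop.comp t1
  have t3 : Tendsto (fun j : ℕ => Real.log (Real.log ((4 ^ j : ℕ) : ℝ))) atTop atTop :=
    Real.tendsto_log_atTop.comp t2
  have t4 := (tendsto_rpow_atTop (by norm_num : (0 : ℝ) < 1 / 4)).comp t2
  have t5 := (tendsto_rpow_atTop (by nlinarith : (0 : ℝ) < 3 / 4 * (kap - 1))).comp t3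
  exact t4.atTop_mul_atTop₀ t5

private lemma lo_rho : ∃ C : ℝ, 1 ≤ C ∧ ∀ N : ℕ, ∑ n ∈ Finset.Icc 1 N, rho n ≤ C * N := by
  obtain ⟨C, hC, hgr⟩ := gr_le (ε := 1 / 16) (by norm_num)
  refine ⟨max C 1, le_max_right _ _, fun N => ?_⟩
  have h : ∀ k ∈ Finset.Icc 1 N, rho k ≤ C := by
    intro k hk
    rw [Finset.mem_Icc] at hk
    have hk0 : (0 : ℝ) < k := by exact_mod_cast hk.1
    have hk1 : (1 : ℝ) ≤ k := by exact_mod_cast hk.1
    rw [rho]
    calc (gr k : ℝ) * (k : ℝ) ^ (-(3 / 4) : ℝ)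
        ≤ (C * (k : ℝ) ^ (1 / 16 : ℝ)) * (k : ℝ) ^ (-(3 / 4) : ℝ) := by
          have := hgr k hk.1
          gcongr
      _ = C * (k : ℝ) ^ ((1 / 16 : ℝ) + -(3 / 4)) := by rw [mul_assoc, ← Real.rpow_add hk0]
      _ ≤ C * 1 := by
          refine mul_le_mul_of_nonneg_left ?_ hC.le
          exact Real.rpow_le_one_of_one_le_of_nonpos hk1 (by norm_num)
      _ = C := mul_one C
  refine (Finset.sum_le_card_nsmul _ _ C h).trans ?_
  rw [Nat.card_Icc, nsmul_eq_mul, mul_comm]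
  simp only [Nat.add_sub_cancel]
  gcongr
  exact le_max_left _ _

/-! ### The parameters at one scale -/

private def loN (j : ℕ) : ℕ := 2 ^ (10 * (2 * j + 1))

private lemma lo_sqrtN (j : ℕ) : √((loN j : ℕ) : ℝ) = 2 ^ (10 * j + 5) := by
  have : ((loN j : ℕ) : ℝ) = (2 ^ (10 * j + 5)) ^ 2 := by
    simp only [loN]
    push_cast
    rw [← pow_mul]
    congr 1
    ring
  rw [this, Real.sqrt_sq (by positivity)]

private lemma lo_base {j t : ℕ} (ht : t ≤ j / 8) :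
    ((t : ℝ) + 1) * √((loN j : ℕ) : ℝ) + 1 ≤ 2 ^ (11 * j + 6) := by
  rw [lo_sqrtN]
  have h1 : (t : ℝ) + 1 ≤ 2 ^ j := by
    have h2 : t + 1 ≤ 2 ^ j := by
      have := Nat.lt_two_pow_self (n := j)
      omega
    exact_mod_cast h2
  have h3 : (1 : ℝ) ≤ 2 ^ (11 * j + 5) := one_le_pow₀ (by norm_num)
  calc ((t : ℝ) + 1) * 2 ^ (10 * j + 5) + 1 ≤ 2 ^ j * 2 ^ (10 * j + 5) + 2 ^ (11 * j + 5) := by
        gcongr
    _ = 2 ^ (11 * j + 6) := by
        rw [← pow_add, show j + (10 * j + 5) = 11 * j + 5 by ring, pow_succ _ (11 * j + 5)]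
        ring

private lemma lo_D {j t : ℕ} (ht : t ≤ j / 8) :
    (((t : ℝ) + 1) * √((loN j : ℕ) : ℝ) + 1) ^ (2 ^ (t + 1)) ≤ 2 ^ (loE j) := by
  have h0 : (0 : ℝ) ≤ ((t : ℝ) + 1) * √((loN j : ℕ) : ℝ) + 1 := by positivity
  calc (((t : ℝ) + 1) * √((loN j : ℕ) : ℝ) + 1) ^ (2 ^ (t + 1))
      ≤ (2 ^ (11 * j + 6)) ^ (2 ^ (t + 1)) := pow_le_pow_left₀ h0 (lo_base ht) _
    _ ≤ (2 ^ (11 * j + 6)) ^ (2 ^ (j / 8 + 1)) :=
        pow_le_pow_right₀ (one_le_pow₀ (by norm_num)) (Nat.pow_le_pow_right (by norm_num) (by omega))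
    _ = 2 ^ (loE j) := by rw [← pow_mul, loE]

private def loP (lam : ℕ → ℝ) (j i : ℕ) : ℝ := lam (4 ^ j + i * 2 ^ j)

private lemma loP_ge {β : ℝ} {lam : ℕ → ℝ} (hβ : 1 < β) (hl : Lac β lam) (j i : ℕ) :
    β ^ (4 ^ j) * lam 0 ≤ loP lam j i := by
  have h1 := lo_lac hβ hl 0 (4 ^ j + i * 2 ^ j)
  rw [zero_add] at h1
  refine le_trans ?_ h1
  have h0 := hl.1 0
  have : β ^ (4 ^ j) ≤ β ^ (4 ^ j + i * 2 ^ j) := pow_le_pow_right₀ hβ.le (by omega)
  gcongr

private lemma loP_sep {β : ℝ} {lam : ℕ → ℝ} (hβ : 1 < β) (hl : Lac β lam) (j : ℕ) {i i' : ℕ}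
    (h : i < i') : β ^ (2 ^ j) * loP lam j i ≤ loP lam j i' := by
  have h1 := lo_lac hβ hl (4 ^ j + i * 2 ^ j) ((i' - i) * 2 ^ j)
  have e : 4 ^ j + i * 2 ^ j + (i' - i) * 2 ^ j = 4 ^ j + i' * 2 ^ j := by
    obtain ⟨d, rfl⟩ := Nat.exists_eq_add_of_lt h
    have : i + d + 1 - i = d + 1 := by omega
    rw [this]; ring
  rw [e] at h1
  refine le_trans ?_ h1
  have h0 := hl.1 (4 ^ j + i * 2 ^ j)
  have : β ^ (2 ^ j) ≤ β ^ ((i' - i) * 2 ^ j) := by
    apply pow_le_pow_right₀ hβ.le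
    exact Nat.le_mul_of_pos_left _ (by omega)
  unfold loP
  gcongr

/-- the second moment at one scale -/
private lemma lo_moment {β : ℝ} {lam : ℕ → ℝ} (hβ : 1 < β) (hl : Lac β lam) {j t : ℕ}
    (ht : t ≤ j / 8) (hj : (2 : ℝ) ^ (2 * loG j) ≤ β ^ (2 ^ j))
    {ι : Type} (S : Finset ι) (c : ι → ℂ) (ν : ι → ℝ) {A : ℝ}
    (h1 : ∀ i ∈ S, ν i ≠ 0 → 1 ≤ |ν i| * (((t : ℝ) + 1) * √((loN j : ℕ) : ℝ) + 1) ^ (2 ^ (t + 1)))
    (h2 : ∀ i ∈ S, |ν i| ≤ ((t : ℝ) + 1) * √((loN j : ℕ) : ℝ))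
    (hA : ∑ i ∈ S, ‖c i‖ ≤ A) {a b M₂ : ℝ} (hab : a ≤ b)
    (F : ℝ → ℝ) (hF : ∀ x, (F x : ℂ) = ∑ i ∈ S, c i * ee (x * ν i)) (F₀ : ℝ)
    (hF₀ : (F₀ : ℂ) = ∑ i ∈ S.filter (fun i => ν i = 0), c i)
    (hM : ∀ i < 2 ^ j, ∫ α in a..b, (F (α * loP lam j i) - F₀) ^ 2 ≤ M₂) :
    ∫ α in a..b, ((1 / (2 ^ j : ℕ) : ℝ) * ∑ i ∈ Finset.range (2 ^ j), F (α * loP lam j i) - F₀) ^ 2
      ≤ M₂ / 2 ^ j + 2 * A ^ 2 * (2 ^ loE j / (2 ^ (2 * loG j) * lam 0)) := by
  have hβ0 : 0 < β := by linarith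
  have hl0 := hl.1 0
  set X : ℝ := ((t : ℝ) + 1) * √((loN j : ℕ) : ℝ) with hX
  have hX0 : 0 ≤ X := by positivity
  have hX1 : 0 < X + 1 := by linarith
  set D : ℝ := (X + 1) ^ (2 ^ (t + 1)) with hD
  have hD0 : 0 < D := by positivity
  have hDle : D ≤ 2 ^ loE j := lo_D ht
  have hXle : X + 1 ≤ 2 ^ (11 * j + 6) := lo_base ht
  have hBD : 2 * X * D ≤ β ^ (2 ^ j) := by
    calc 2 * X * D ≤ 2 * 2 ^ (11 * j + 6) * 2 ^ loE j := by
          have : X ≤ 2 ^ (11 * j + 6) := by linarith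
          gcongr
      _ = 2 ^ (11 * j + 7 + loE j) := by
          rw [pow_add, show 11 * j + 7 = 11 * j + 6 + 1 by ring, pow_succ]; ring
      _ ≤ 2 ^ (2 * loG j) := by
          apply pow_le_pow_right₀ (by norm_num)
          simp only [loG]; omega
      _ ≤ β ^ (2 ^ j) := hj
  have hδ : 0 < D⁻¹ := by positivity
  have hL : 0 < β ^ (4 ^ j) * lam 0 := by positivity
  have key := second_moment S c ν (δ := D⁻¹) (B := X) (A := A) (L := β ^ (4 ^ j) * lam 0) hδ hL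
    (fun i hi hne => by
      rw [inv_le_iff_one_le_mul₀ hD0]
      exact h1 i hi hne) h2 hA (2 ^ j) (by positivity) (loP lam j)
    (fun i _ => loP_ge hβ hl j i)
    (fun i i' hii _ => by
      rw [← mul_le_mul_iff_right₀ hD0]
      have e : D * (D⁻¹ * loP lam j i') = loP lam j i' := by
        rw [← mul_assoc, mul_inv_cancel₀ hD0.ne', one_mul]
      rw [e]
      refine le_trans ?_ (loP_sep hβ hl j hii)
      have hp : 0 ≤ loP lam j i := (hl.1 _).le
      calc D * (2 * X * loP lam j i) = (2 * X * D) * loP lam j i := by ring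
        _ ≤ β ^ (2 ^ j) * loP lam j i := by gcongr) (a := a) (b := b) (M₂ := M₂) hab F hF F₀ hF₀ hM
  refine key.trans ?_
  push_cast
  have hA0 : 0 ≤ A ^ 2 := sq_nonneg A
  have h3 : 2 * A ^ 2 / (D⁻¹ * (β ^ (4 ^ j) * lam 0)) = 2 * A ^ 2 * (D / (β ^ (4 ^ j) * lam 0)) := by
    field_simp
  rw [h3]
  have h4 : (2 : ℝ) ^ (2 * loG j) ≤ β ^ (4 ^ j) := by
    refine hj.trans (pow_le_pow_right₀ hβ.le ?_)
    exact Nat.pow_le_pow_left (by norm_num) j
  gcongr

/-! ### Numerical estimates -/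

private lemma lo_sqrt2 : (1 : ℝ) ≤ √2 := by
  rw [show (1 : ℝ) = √1 by simp]; exact Real.sqrt_le_sqrt (by norm_num)

private lemma lo_s_quarter {j t : ℕ} (ht : t ≤ j / 8) : (4 : ℝ) ^ t / 2 ^ j ≤ (√2)⁻¹ ^ j := by
  have h0 : (0 : ℝ) < √2 ^ j := by positivity
  have hsq : (√2 ^ j) * (√2 ^ j) = 2 ^ j := by
    rw [← mul_pow, Real.mul_self_sqrt (by norm_num)]
  have h1 : (4 : ℝ) ^ t ≤ √2 ^ j :=
    (pow_le_pow_right₀ (by norm_num) ht).trans (lo_pow_quarter j)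
  rw [← hsq, inv_pow, div_le_iff₀ (by positivity)]
  calc (4 : ℝ) ^ t ≤ √2 ^ j := h1
    _ = (√2 ^ j)⁻¹ * (√2 ^ j * √2 ^ j) := by field_simp

private lemma lo_s_one (j : ℕ) : (1 : ℝ) / 2 ^ j ≤ (√2)⁻¹ ^ j := by
  have := lo_s_quarter (j := j) (t := 0) (Nat.zero_le _)
  simpa using this

private lemma lo_s_big {l : ℝ} (hl : 0 < l) {j : ℕ} {X : ℝ} (hX : X ≤ 2 ^ loG j) :
    X / (2 ^ (2 * loG j) * l) ≤ (√2)⁻¹ ^ j / l := by
  have hG : (0 : ℝ) < 2 ^ loG j := by positivity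
  have h1 : X / (2 ^ (2 * loG j) * l) ≤ 2 ^ loG j / (2 ^ (2 * loG j) * l) := by gcongr
  refine h1.trans ?_
  have h2 : (2 : ℝ) ^ loG j / (2 ^ (2 * loG j) * l) = (1 / 2 ^ loG j) / l := by
    rw [two_mul, pow_add]; field_simp
  rw [h2]
  have h3 : (1 : ℝ) / 2 ^ loG j ≤ 1 / 2 ^ j := by
    apply one_div_le_one_div_of_le (by positivity)
    apply pow_le_pow_right₀ (by norm_num)
    simp only [loG]; omega
  have h4 := h3.trans (lo_s_one j)
  gcongr

private lemma lo_four {j t : ℕ} (ht : t ≤ j / 8) : ((2 : ℝ) ^ t) ^ 2 ≤ 2 ^ j := by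
  rw [← pow_mul]
  apply pow_le_pow_right₀ (by norm_num)
  omega

private lemma lo_N (j : ℕ) : ((loN j : ℕ) : ℝ) = 2 ^ (20 * j + 10) := by
  simp only [loN]; push_cast; congr 1; ring

private lemma lo_N1 (j : ℕ) : (((loN j : ℕ) : ℝ) + 1) ^ 8 ≤ 2 ^ (160 * j + 88) := by
  rw [lo_N]
  have h1 : (1 : ℝ) ≤ 2 ^ (20 * j + 10) := one_le_pow₀ (by norm_num)
  calc ((2 : ℝ) ^ (20 * j + 10) + 1) ^ 8 ≤ (2 ^ (20 * j + 10) + 2 ^ (20 * j + 10)) ^ 8 := by gcongr
    _ = 2 ^ (160 * j + 88) := by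
      rw [← two_mul, ← pow_succ', ← pow_mul]; congr 1; ring

private lemma lo_four' (t : ℕ) : ((2 : ℝ) ^ t) ^ 2 = 4 ^ t := by
  rw [← pow_mul, mul_comm, pow_mul]; norm_num

/-- one scale: the bad set is small -/
private lemma lo_scale {β : ℝ} {lam : ℕ → ℝ} (hβ : 1 < β) (hl : Lac β lam) {σ : ℝ}
    (hσ : σ = 1 ∨ σ = -1) {a b : ℝ} (hab : a < b) {C Cr cT : ℝ} (hC : 0 < C) (hCr : 1 ≤ Cr)
    (hTK : ∀ (N : ℕ) (a b lam : ℝ), a ≤ b → 0 < lam →
      ∫ α in a..b, TK N (α * lam) ^ 2 ≤ C * (b - a) + C * ((N : ℝ) + 1) ^ 8 / lam)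
    (hrho : ∀ N : ℕ, ∑ n ∈ Finset.Icc 1 N, rho n ≤ Cr * N)
    {j : ℕ} (hj : (2 : ℝ) ^ (2 * loG j) ≤ β ^ (2 ^ j)) {T : Finset ℕ} (hT : T ⊆ sqf (2 ^ j))
    (hTc : T.card ≤ j / 8) (hS1 : 1 ≤ ∑ q ∈ T, rho q)
    (hPhi : ∀ k : ℕ, 4 ^ j ≤ k → k < 2 * 4 ^ j → cT * Phi k ≤ ∑ q ∈ T, rho q) :
    volume {α ∈ Icc a b | ∀ k : ℕ, 4 ^ j ≤ k → k < 2 * 4 ^ j →
      σ * TK (Nk k) (α * lam k) < cT / (8 * π) * Phi k}
    ≤ ENNReal.ofReal (((b - a) + 2 / lam 0 + ((8 * π) ^ 2 * (2 * C * (b - a) + 2 * C / lam 0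
      + 2 * Cr ^ 2 / lam 0) + 32 * (b - a))) * (√2)⁻¹ ^ j) := by
  have hl0 := hl.1 0
  have hba : 0 < b - a := by linarith
  have hσ1 : |σ| ≤ 1 := by rcases hσ with rfl | rfl <;> norm_num
  have hσ2 : σ * σ = 1 := by rcases hσ with rfl | rfl <;> norm_num
  have hpi := Real.pi_pos
  set S : ℝ := ∑ q ∈ T, rho q with hS
  have hS0 : 0 < S := by linarith
  have hTN : T ⊆ sqf (loN j) := by
    intro q hq
    have := hT hq
    rw [sqf, Finset.mem_filter, Finset.mem_Icc] at this ⊢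
    refine ⟨⟨this.1.1, this.1.2.trans ?_⟩, this.2⟩
    exact Nat.pow_le_pow_right (by norm_num) (by omega)
  have hTs : ∀ q ∈ T, Squarefree q := fun q hq => by
    have := hT hq
    rw [sqf, Finset.mem_filter] at this
    exact this.2
  have hTI : T ⊆ Finset.Icc 1 (loN j) := fun q hq => by
    have := hTN hq
    rw [sqf, Finset.mem_filter] at this
    exact this.1
  have hNB : LW_NB := fun hS c hc B hB h => norm_bound hS c hc hB h
  obtain ⟨ι1, S1, c1, ν1, a1, a2, a3, a4, a5⟩ := Wr_poly_of hNB hTs hσ1 hTI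
  obtain ⟨ι2, S2, c2, ν2, b1, b2, b3, b4, b5⟩ := WrTK_poly_of hNB hσ1 hTN
  have cTK := lo_continuous_TK (loN j)
  have cW := lo_continuous_Wr σ T
  have hW0 : ∀ x, 0 ≤ Wr σ T x := Wr_nonneg hσ1 T
  have hW1 : ∀ x, Wr σ T x ≤ 2 ^ T.card := Wr_le hσ1 T
  have h2t : (1 : ℝ) ≤ 2 ^ T.card := one_le_pow₀ (by norm_num)
  have hLi : ∀ i, 2 ^ (2 * loG j) * lam 0 ≤ loP lam j i := by
    intro i
    refine le_trans ?_ (loP_ge hβ hl j i)
    have h4 : (2 : ℝ) ^ (2 * loG j) ≤ β ^ (4 ^ j) := by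
      refine hj.trans (pow_le_pow_right₀ hβ.le ?_)
      exact Nat.pow_le_pow_left (by norm_num) j
    gcongr
  have hLpos : (0 : ℝ) < 2 ^ (2 * loG j) * lam 0 := by positivity
  -- first second moment
  have I1 := lo_moment hβ hl hTc hj S1 c1 ν1 a1 a2 a3 hab.le (Wr σ T) a4 1
    (by push_cast; exact a5) (M₂ := (b - a) * 4 ^ T.card) (fun i _ => by
      have hle : ∫ α in a..b, (Wr σ T (α * loP lam j i) - 1) ^ 2 ≤ ∫ _α in a..b, (4 : ℝ) ^ T.card := by
        apply intervalIntegral.integral_mono_on hab.le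
        · exact (((cW.comp (continuous_id.mul continuous_const)).sub continuous_const).pow 2).intervalIntegrable _ _
        · exact continuous_const.intervalIntegrable _ _
        · intro x _
          rw [← lo_four', sq_le_sq, abs_of_nonneg (by positivity : (0 : ℝ) ≤ 2 ^ T.card)]
          rw [abs_le]
          have := hW0 (x * loP lam j i)
          have := hW1 (x * loP lam j i)
          constructor <;> linarith
      rwa [intervalIntegral.integral_const, smul_eq_mul] at hle)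
  -- second second moment
  set F₀ : ℝ := σ / (2 * π) * S with hF₀
  have hA : ∑ i ∈ S2, ‖c2 i‖ ≤ 2 ^ T.card * (Cr * (loN j : ℕ)) :=
    b3.trans (by have := hrho (loN j); gcongr)
  have I2 := lo_moment hβ hl hTc hj S2 c2 ν2 b1 b2 hA hab.le (fun x => Wr σ T x * TK (loN j) x) b4
    F₀ (by exact_mod_cast b5) (M₂ := 2 * 4 ^ T.card * (C * (b - a)
      + C * (((loN j : ℕ) : ℝ) + 1) ^ 8 / (2 ^ (2 * loG j) * lam 0)) + 2 * F₀ ^ 2 * (b - a))
    (fun i _ => by
      have hp : 0 < loP lam j i := hl.1 _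
      have hc1 : Continuous fun α : ℝ => TK (loN j) (α * loP lam j i) ^ 2 :=
        (cTK.comp (continuous_id.mul continuous_const)).pow 2
      have hle : ∫ α in a..b, (Wr σ T (α * loP lam j i) * TK (loN j) (α * loP lam j i) - F₀) ^ 2
          ≤ ∫ α in a..b, (2 * 4 ^ T.card * TK (loN j) (α * loP lam j i) ^ 2 + 2 * F₀ ^ 2) := by
        apply intervalIntegral.integral_mono_on hab.le
        · exact ((((cW.comp (continuous_id.mul continuous_const)).mul
            (cTK.comp (continuous_id.mul continuous_const))).sub continuous_const).pow 2).intervalIntegrable _ _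
        · exact ((continuous_const.mul hc1).add continuous_const).intervalIntegrable _ _
        · intro x _
          set w := Wr σ T (x * loP lam j i)
          set v := TK (loN j) (x * loP lam j i)
          have e1 : w ^ 2 ≤ 4 ^ T.card := by
            rw [← lo_four']
            exact pow_le_pow_left₀ (hW0 _) (hW1 _) 2
          have e2 : w ^ 2 * v ^ 2 ≤ 4 ^ T.card * v ^ 2 := by gcongr
          nlinarith [sq_nonneg (w * v + F₀)]
      refine hle.trans ?_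
      have e0 : ∫ α in a..b, (2 * 4 ^ T.card * TK (loN j) (α * loP lam j i) ^ 2 + 2 * F₀ ^ 2)
          = 2 * 4 ^ T.card * (∫ α in a..b, TK (loN j) (α * loP lam j i) ^ 2)
            + (b - a) * (2 * F₀ ^ 2) := by
        rw [intervalIntegral.integral_add
          (f := fun α => 2 * 4 ^ T.card * TK (loN j) (α * loP lam j i) ^ 2)
          (g := fun _ => 2 * F₀ ^ 2) ((continuous_const.mul hc1).intervalIntegrable _ _)
          (continuous_const.intervalIntegrable _ _), intervalIntegral.integral_const_mul,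
          intervalIntegral.integral_const, smul_eq_mul]
      rw [e0]
      have e3 := hTK (loN j) a b (loP lam j i) hab.le hp
      have e4 : C * (((loN j : ℕ) : ℝ) + 1) ^ 8 / loP lam j i
          ≤ C * (((loN j : ℕ) : ℝ) + 1) ^ 8 / (2 ^ (2 * loG j) * lam 0) := by
        have := hLi i
        gcongr
      have e5 : ∫ α in a..b, TK (loN j) (α * loP lam j i) ^ 2 ≤ C * (b - a)
        + C * (((loN j : ℕ) : ℝ) + 1) ^ 8 / (2 ^ (2 * loG j) * lam 0) := by linarith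
      have e6 : (0 : ℝ) ≤ 2 * 4 ^ T.card := by positivity
      nlinarith [mul_le_mul_of_nonneg_left e5 e6])
  set s : ℝ := (√2)⁻¹ ^ j with hs
  have hs0 : 0 < s := by positivity
  have hq := lo_s_quarter hTc
  have hone := lo_s_one j
  rw [← hs] at hq hone
  -- bound of the first
  have P1 : (b - a) * 4 ^ T.card / 2 ^ j
      + 2 * (2 ^ T.card) ^ 2 * (2 ^ loE j / (2 ^ (2 * loG j) * lam 0))
      ≤ ((b - a) + 2 / lam 0) * s := by
    have h1 : ((2 : ℝ) ^ T.card) ^ 2 * 2 ^ loE j ≤ 2 ^ loG j := by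
      calc ((2 : ℝ) ^ T.card) ^ 2 * 2 ^ loE j ≤ 2 ^ j * 2 ^ loE j := by
            have := lo_four hTc
            gcongr
        _ = 2 ^ (j + loE j) := by rw [pow_add]
        _ ≤ 2 ^ loG j := by
            apply pow_le_pow_right₀ (by norm_num)
            simp only [loG]; omega
    have h2 := lo_s_big hl0 h1
    rw [← hs] at h2
    have h3 : (b - a) * 4 ^ T.card / 2 ^ j = (b - a) * (4 ^ T.card / 2 ^ j) := by ring
    have h4 : 2 * ((2 : ℝ) ^ T.card) ^ 2 * (2 ^ loE j / (2 ^ (2 * loG j) * lam 0))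
        = 2 * (((2 : ℝ) ^ T.card) ^ 2 * 2 ^ loE j / (2 ^ (2 * loG j) * lam 0)) := by ring
    rw [h3, h4]
    have h5 := mul_le_mul_of_nonneg_left hq hba.le
    have h6 : ((b - a) + 2 / lam 0) * s = (b - a) * s + 2 * (s / lam 0) := by ring
    rw [h6]
    linarith
  have P2 : (2 * 4 ^ T.card * (C * (b - a)
      + C * (((loN j : ℕ) : ℝ) + 1) ^ 8 / (2 ^ (2 * loG j) * lam 0)) + 2 * F₀ ^ 2 * (b - a)) / 2 ^ j
      + 2 * (2 ^ T.card * (Cr * (loN j : ℕ))) ^ 2 * (2 ^ loE j / (2 ^ (2 * loG j) * lam 0))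
      ≤ (2 * C * (b - a) + 2 * C / lam 0 + 2 * Cr ^ 2 / lam 0) * s + 2 * F₀ ^ 2 * (b - a) * s := by
    have h1 : ((2 : ℝ) ^ T.card * (loN j : ℕ)) ^ 2 * 2 ^ loE j ≤ 2 ^ loG j := by
      calc ((2 : ℝ) ^ T.card * (loN j : ℕ)) ^ 2 * 2 ^ loE j
          = ((2 : ℝ) ^ T.card) ^ 2 * 2 ^ (2 * (20 * j + 10)) * 2 ^ loE j := by
            rw [lo_N, mul_pow, ← pow_mul _ (20 * j + 10) 2, mul_comm (20 * j + 10) 2]
        _ ≤ 2 ^ j * 2 ^ (2 * (20 * j + 10)) * 2 ^ loE j := by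
            have := lo_four hTc
            gcongr
        _ = 2 ^ (j + 2 * (20 * j + 10) + loE j) := by rw [pow_add, pow_add]
        _ ≤ 2 ^ loG j := by
            apply pow_le_pow_right₀ (by norm_num)
            simp only [loG]; omega
    have h2 := lo_s_big hl0 h1
    have h3 : (4 : ℝ) ^ T.card * (((loN j : ℕ) : ℝ) + 1) ^ 8 ≤ 2 ^ loG j := by
      calc (4 : ℝ) ^ T.card * (((loN j : ℕ) : ℝ) + 1) ^ 8 ≤ 2 ^ j * 2 ^ (160 * j + 88) := by
            have e1 := lo_four hTc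
            rw [lo_four'] at e1
            have e2 := lo_N1 j
            gcongr
        _ = 2 ^ (j + (160 * j + 88)) := (pow_add _ _ _).symm
        _ ≤ 2 ^ loG j := by
            apply pow_le_pow_right₀ (by norm_num)
            simp only [loG]; omega
    have h4 := lo_s_big hl0 h3
    rw [← hs] at h2 h4
    have h2j : (1 : ℝ) ≤ 2 ^ j := one_le_pow₀ (by norm_num)
    have hsl : 0 ≤ s / lam 0 := by positivity
    -- the three parts
    have k1 : 2 * C * (b - a) * (4 ^ T.card / 2 ^ j) ≤ 2 * C * (b - a) * s := by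
      have : 0 ≤ 2 * C * (b - a) := by positivity
      gcongr
    have k2 : 2 * C * (4 ^ T.card * (((loN j : ℕ) : ℝ) + 1) ^ 8 / (2 ^ (2 * loG j) * lam 0)) / 2 ^ j
        ≤ 2 * C * (s / lam 0) := by
      rw [div_le_iff₀ (by positivity)]
      calc 2 * C * (4 ^ T.card * (((loN j : ℕ) : ℝ) + 1) ^ 8 / (2 ^ (2 * loG j) * lam 0))
          ≤ 2 * C * (s / lam 0) := by gcongr
        _ = 2 * C * (s / lam 0) * 1 := by ring
        _ ≤ 2 * C * (s / lam 0) * 2 ^ j := by gcongr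
    have k3 : 2 * F₀ ^ 2 * (b - a) * (1 / 2 ^ j) ≤ 2 * F₀ ^ 2 * (b - a) * s := by
      have : 0 ≤ 2 * F₀ ^ 2 * (b - a) := by positivity
      gcongr
    have k4 : 2 * Cr ^ 2 * (((2 : ℝ) ^ T.card * (loN j : ℕ)) ^ 2 * 2 ^ loE j
        / (2 ^ (2 * loG j) * lam 0)) ≤ 2 * Cr ^ 2 * (s / lam 0) := by gcongr
    calc _ = 2 * C * (b - a) * (4 ^ T.card / 2 ^ j)
        + 2 * C * (4 ^ T.card * (((loN j : ℕ) : ℝ) + 1) ^ 8 / (2 ^ (2 * loG j) * lam 0)) / 2 ^ j
        + 2 * F₀ ^ 2 * (b - a) * (1 / 2 ^ j)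
        + 2 * Cr ^ 2 * (((2 : ℝ) ^ T.card * (loN j : ℕ)) ^ 2 * 2 ^ loE j
          / (2 ^ (2 * loG j) * lam 0)) := by ring
      _ ≤ 2 * C * (b - a) * s + 2 * C * (s / lam 0) + 2 * F₀ ^ 2 * (b - a) * s
        + 2 * Cr ^ 2 * (s / lam 0) := by linarith
      _ = _ := by ring
  -- the functions
  set f1 : ℝ → ℝ := fun α => (1 / (2 ^ j : ℕ) : ℝ) * ∑ i ∈ Finset.range (2 ^ j),
    Wr σ T (α * loP lam j i) - 1 with hf1
  set f2 : ℝ → ℝ := fun α => (1 / (2 ^ j : ℕ) : ℝ) * ∑ i ∈ Finset.range (2 ^ j),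
    Wr σ T (α * loP lam j i) * TK (loN j) (α * loP lam j i) - F₀ with hf2
  have hc1 : Continuous f1 := by
    refine (continuous_const.mul (continuous_finsetSum _ fun i _ => ?_)).sub continuous_const
    exact cW.comp (continuous_id.mul continuous_const)
  have hc2 : Continuous f2 := by
    refine (continuous_const.mul (continuous_finsetSum _ fun i _ => ?_)).sub continuous_const
    exact (cW.comp (continuous_id.mul continuous_const)).mul
      (cTK.comp (continuous_id.mul continuous_const))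
  have hsub : {α ∈ Icc a b | ∀ k : ℕ, 4 ^ j ≤ k → k < 2 * 4 ^ j →
      σ * TK (Nk k) (α * lam k) < cT / (8 * π) * Phi k}
      ⊆ {α ∈ Icc a b | 1 ≤ |f1 α|} ∪ {α ∈ Icc a b | S / (8 * π) ≤ |f2 α|} := by
    intro α hα
    obtain ⟨hαI, hα⟩ := hα
    by_contra hcon
    simp only [mem_union, mem_ofPred_eq, not_or, not_and, not_le] at hcon
    have g1 := hcon.1 hαI
    have g2 := hcon.2 hαI
    simp only [hf1] at g1
    simp only [hf2] at g2
    have h2jN : (0 : ℝ) < ((2 ^ j : ℕ) : ℝ) := by positivity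
    have hterm : ∀ i ∈ Finset.range (2 ^ j),
        σ * (Wr σ T (α * loP lam j i) * TK (loN j) (α * loP lam j i))
          ≤ S / (8 * π) * Wr σ T (α * loP lam j i) := by
      intro i hi
      rw [Finset.mem_range] at hi
      have k1 : 4 ^ j ≤ 4 ^ j + i * 2 ^ j := Nat.le_add_right _ _
      have k2 : 4 ^ j + i * 2 ^ j < 2 * 4 ^ j := by
        have e : (4 : ℕ) ^ j = 2 ^ j * 2 ^ j := by rw [← mul_pow]; norm_num
        rw [e]
        have : 0 < 2 ^ j := by positivity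
        nlinarith
      have k3 := hα _ k1 k2
      have k4 := hPhi _ k1 k2
      rw [lo_Nk k1 k2] at k3
      have k5 : σ * TK (loN j) (α * loP lam j i) ≤ S / (8 * π) := by
        refine k3.le.trans ?_
        rw [div_mul_eq_mul_div]
        gcongr
      calc σ * (Wr σ T (α * loP lam j i) * TK (loN j) (α * loP lam j i))
          = Wr σ T (α * loP lam j i) * (σ * TK (loN j) (α * loP lam j i)) := by ring
        _ ≤ Wr σ T (α * loP lam j i) * (S / (8 * π)) := mul_le_mul_of_nonneg_left k5 (hW0 _)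
        _ = _ := mul_comm _ _
    have hsum : σ * ((1 / (2 ^ j : ℕ) : ℝ) * ∑ i ∈ Finset.range (2 ^ j),
        Wr σ T (α * loP lam j i) * TK (loN j) (α * loP lam j i))
        ≤ S / (8 * π) * ((1 / (2 ^ j : ℕ) : ℝ) * ∑ i ∈ Finset.range (2 ^ j),
        Wr σ T (α * loP lam j i)) := by
      have := Finset.sum_le_sum hterm
      rw [← Finset.mul_sum, ← Finset.mul_sum] at this
      have h3 : (0 : ℝ) ≤ 1 / (2 ^ j : ℕ) := by positivity
      have := mul_le_mul_of_nonneg_left this h3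
      linarith
    have g1' := (abs_lt.mp g1).2
    have g2' := abs_lt.mp g2
    set w : ℝ := (1 / (2 ^ j : ℕ) : ℝ) * ∑ i ∈ Finset.range (2 ^ j), Wr σ T (α * loP lam j i) with hw
    set v : ℝ := (1 / (2 ^ j : ℕ) : ℝ) * ∑ i ∈ Finset.range (2 ^ j),
        Wr σ T (α * loP lam j i) * TK (loN j) (α * loP lam j i) with hv
    have hS8 : 0 < S / (8 * π) := by positivity
    have hFv : σ * F₀ = 4 * (S / (8 * π)) := by
      rw [hF₀]
      have : σ * (σ / (2 * π) * S) = (σ * σ) * (S / (2 * π)) := by ring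
      rw [this, hσ2]
      field_simp
      ring
    have hup : σ * v ≤ 2 * (S / (8 * π)) := by nlinarith
    have hlow : 3 * (S / (8 * π)) ≤ σ * v := by
      rcases hσ with h | h
      · rw [h] at hFv ⊢; linarith [g2'.1]
      · rw [h] at hFv ⊢; linarith [g2'.2]
    linarith
  refine (measure_mono hsub).trans ((measure_union_le _ _).trans ?_)
  have m1 := lo_cheb hc1 hab.le (t := 1) one_pos
  have m2 := lo_cheb hc2 hab.le (t := S / (8 * π)) (by positivity)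
  have hba' := hba.le
  have hsl : 0 ≤ 2 / lam 0 := by positivity
  have hsl2 : 0 ≤ 2 * C * (b - a) + 2 * C / lam 0 + 2 * Cr ^ 2 / lam 0 := by positivity
  have n1 : (∫ α in a..b, f1 α ^ 2) / 1 ^ 2 ≤ ((b - a) + 2 / lam 0) * s := by
    rw [one_pow, div_one]
    exact I1.trans P1
  have n2 : (∫ α in a..b, f2 α ^ 2) / (S / (8 * π)) ^ 2
      ≤ ((8 * π) ^ 2 * (2 * C * (b - a) + 2 * C / lam 0 + 2 * Cr ^ 2 / lam 0) + 32 * (b - a)) * s := by
    rw [div_le_iff₀ (by positivity)]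
    refine (I2.trans P2).trans ?_
    have e1 : F₀ ^ 2 = 16 * (S / (8 * π)) ^ 2 := by
      have : F₀ ^ 2 = (σ * F₀) ^ 2 := by
        calc F₀ ^ 2 = (σ * σ) * F₀ ^ 2 := by rw [hσ2, one_mul]
          _ = (σ * F₀) ^ 2 := by ring
      rw [this]
      have : σ * F₀ = 4 * (S / (8 * π)) := by
        rw [hF₀]
        have : σ * (σ / (2 * π) * S) = (σ * σ) * (S / (2 * π)) := by ring
        rw [this, hσ2]
        field_simp
        ring
      rw [this]; ring
    have e2 : (1 : ℝ) ≤ (8 * π) ^ 2 * (S / (8 * π)) ^ 2 := by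
      rw [← mul_pow]
      have : 8 * π * (S / (8 * π)) = S := by field_simp
      rw [this]
      nlinarith
    rw [e1]
    have e3 : 0 ≤ (2 * C * (b - a) + 2 * C / lam 0 + 2 * Cr ^ 2 / lam 0) * s := by positivity
    have e4 := mul_le_mul_of_nonneg_left e2 e3
    calc (2 * C * (b - a) + 2 * C / lam 0 + 2 * Cr ^ 2 / lam 0) * s
          + 2 * (16 * (S / (8 * π)) ^ 2) * (b - a) * s
        ≤ (2 * C * (b - a) + 2 * C / lam 0 + 2 * Cr ^ 2 / lam 0) * s
          * ((8 * π) ^ 2 * (S / (8 * π)) ^ 2) + 2 * (16 * (S / (8 * π)) ^ 2) * (b - a) * s := by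
          linarith
      _ = _ := by ring
  calc _ ≤ ENNReal.ofReal (((b - a) + 2 / lam 0) * s)
        + ENNReal.ofReal (((8 * π) ^ 2 * (2 * C * (b - a) + 2 * C / lam 0 + 2 * Cr ^ 2 / lam 0)
          + 32 * (b - a)) * s) :=
        add_le_add (m1.trans (ENNReal.ofReal_le_ofReal n1)) (m2.trans (ENNReal.ofReal_le_ofReal n2))
    _ = _ := by
        rw [← ENNReal.ofReal_add (by positivity) (by positivity)]
        congr 1
        ring

/-- LO: the measure of the bad set tends to zero. -/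
theorem low_measure_of (hTKsq : ∃ C : ℝ, 0 < C ∧ ∀ (N : ℕ) (a b lam : ℝ), a ≤ b → 0 < lam →
    ∫ α in a..b, TK N (α * lam) ^ 2 ≤ C * (b - a) + C * ((N : ℝ) + 1) ^ 8 / lam) :
    ∃ c : ℝ, 0 < c ∧ ∀ (β : ℝ) (lam : ℕ → ℝ), 1 < β → Lac β lam →
    ∀ σ : ℝ, (σ = 1 ∨ σ = -1) → ∀ a b : ℝ, 0 < a → a < b →
    Tendsto (fun j : ℕ => volume {α ∈ Icc a b | ∀ k : ℕ, 4 ^ j ≤ k → k < 2 * 4 ^ j →
      σ * TK (Nk k) (α * lam k) < c * Phi k}) atTop (𝓝 0) := by
  obtain ⟨cT, hcT, j₀, hset⟩ := exists_T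
  obtain ⟨C, hC, hTK⟩ := hTKsq
  obtain ⟨Cr, hCr, hrho⟩ := lo_rho
  refine ⟨cT / (8 * π), by positivity, fun β lam hβ hl σ hσ a b _ hab => ?_⟩
  set K : ℝ := (b - a) + 2 / lam 0 + ((8 * π) ^ 2 * (2 * C * (b - a) + 2 * C / lam 0
      + 2 * Cr ^ 2 / lam 0) + 32 * (b - a)) with hK
  have hr : (√2)⁻¹ < (1 : ℝ) := by
    apply inv_lt_one_of_one_lt₀
    rw [show (1 : ℝ) = √1 by simp]; exact Real.sqrt_lt_sqrt (by norm_num) (by norm_num)
  have hlim : Tendsto (fun j : ℕ => ENNReal.ofReal (K * (√2)⁻¹ ^ j)) atTop (𝓝 0) := by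
    have h1 := (tendsto_pow_atTop_nhds_zero_of_lt_one (by positivity) hr).const_mul K
    rw [mul_zero] at h1
    have h2 := (ENNReal.continuous_ofReal.tendsto 0).comp h1
    rwa [ENNReal.ofReal_zero] at h2
  refine tendsto_of_tendsto_of_tendsto_of_le_of_le' tendsto_const_nhds hlim
    (Eventually.of_forall fun _ => by simp) ?_
  filter_upwards [lo_beta hβ, eventually_ge_atTop j₀, lo_Phi.eventually_ge_atTop (1 / cT)]
    with j hj hj0 hP
  obtain ⟨T, hT, hTc, hPhi⟩ := hset j hj0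
  have hS1 : 1 ≤ ∑ q ∈ T, rho q := by
    have h4 : 0 < 4 ^ j := by positivity
    refine le_trans ?_ (hPhi (4 ^ j) le_rfl (by omega))
    rw [div_le_iff₀ hcT] at hP
    linarith
  exact lo_scale hβ hl hσ hab hC hCr hTK hrho hj hT hTc hS1 hPhi

end

end Pool.Agent.Helper22.LIL
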